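import Mathlib

/-!
# Admissible double and triple array parameters have at least `r + c - 1` symbols
-/

set_option autoImplicit false

namespace Pool.Agent.Results.MP_4cb54f_co.FewSymbols

/-- `(v, r, c)` is an admissible parameter set (in the non-trivial range) for double or triple
arrays: `r, c ≥ 2`, `max {r, c} < v ≤ r c / 2`, `v ∣ r c`, and with `e = r c / v`,
`(r - 1) ∣ c (e - 1)` and `(c - 1) ∣ r (e - 1)`. -/
def Admissible (v r c : ℕ) : Prop :=
  2 ≤ r ∧ 2 ≤ c ∧ max r c < v ∧ 2 * v ≤ r * c ∧ v ∣ r * c ∧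
    (r - 1) ∣ c * (r * c / v - 1) ∧ (c - 1) ∣ r * (r * c / v - 1)

/-- the case `r ≤ c`, over the integers -/
theorem core (v r c e : ℤ) (hr : 2 ≤ r) (hrc : r ≤ c) (hv : c < v) (he : 2 ≤ e)
    (hev : e * v = r * c) (h1 : (r - 1) ∣ c * (e - 1)) (h2 : (c - 1) ∣ r * (e - 1))
    (hlt : v < r + c - 1) : False := by
  have her : e < r := by
    by_contra h
    push Not at h
    nlinarith
  obtain ⟨f, hf⟩ : ∃ f, f = r - e := ⟨_, rfl⟩
  have hf1 : 1 ≤ f := by omega
  have ha : e ∣ f * c := ⟨v - c, by rw [hf]; linarith⟩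
  have hb : (r - 1) ∣ f * c := by
    have : f * c = (r - 1) * c - c * (e - 1) := by rw [hf]; ring
    rw [this]
    exact dvd_sub (Dvd.intro _ rfl) h1
  -- the gcd
  obtain ⟨g, e', s', hg, hcop, he', hs'⟩ :
      ∃ g e' s' : ℤ, 0 < g ∧ IsCoprime e' s' ∧ e = g * e' ∧ r - 1 = g * s' := by
    have hpos : 0 < Int.gcd e (r - 1) := Int.gcd_pos_of_ne_zero_left _ (by omega)
    obtain ⟨e', s', hc, h3, h4⟩ := Int.exists_gcd_one hpos
    exact ⟨Int.gcd e (r - 1), e', s', by exact_mod_cast hpos,
      Int.isCoprime_iff_gcd_eq_one.2 hc, by rw [mul_comm]; exact h3, by rw [mul_comm]; exact h4⟩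
  have he'pos : 0 < e' := by
    by_contra h
    push Not at h
    nlinarith
  have hs'pos : 0 < s' := by
    by_contra h
    push Not at h
    nlinarith
  obtain ⟨m, hm⟩ : ∃ m, f * c = g * (e' * s' * m) := by
    obtain ⟨a, ha'⟩ := ha
    obtain ⟨b, hb'⟩ := hb
    rw [he'] at ha'
    rw [hs'] at hb'
    have h5 : e' * a = s' * b := by
      have h6 : g * (e' * a) = g * (s' * b) := by linarith
      exact mul_left_cancel₀ hg.ne' h6
    have h7 : s' ∣ a := hcop.symm.dvd_of_dvd_mul_left ⟨b, h5⟩
    obtain ⟨m, rfl⟩ := h7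
    exact ⟨m, by rw [ha']; ring⟩
  have hes : 0 < e' * s' := mul_pos he'pos hs'pos
  have hfc : 0 < f * c := mul_pos (by omega) (by omega)
  have hm1 : 1 ≤ m := by
    by_contra h
    push Not at h
    have h8 : e' * s' * m ≤ 0 := mul_nonpos_of_nonneg_of_nonpos hes.le (by omega)
    have : g * (e' * s' * m) ≤ 0 := mul_nonpos_of_nonneg_of_nonpos hg.le h8
    omega
  have hbound : f * c < e * (r - 1) := by
    have : e * v < e * (r + c - 1) := mul_lt_mul_of_pos_left hlt (by omega)
    rw [hf]
    linarith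
  have hmg : m < g := by
    by_contra h
    push Not at h
    rw [hm, he', hs'] at hbound
    have : g * (e' * s' * g) ≤ g * (e' * s' * m) :=
      mul_le_mul_of_nonneg_left (mul_le_mul_of_nonneg_left h hes.le) hg.le
    linarith
  have hd : f = 1 + g * (s' - e') := by
    rw [hf, mul_sub, ← he', ← hs']; ring
  obtain ⟨μ, hμ⟩ := h2
  have h3 : m * (r * (e - 1)) = f * (g * (c - 1) + (g - m)) := by
    have h9 : r * (e - 1) = e * (r - 1) - f := by rw [hf]; ring
    have h10 : m * (e * (r - 1)) = g * (f * c) := by rw [hm, he', hs']; ring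
    rw [h9, mul_sub, h10]; ring
  obtain ⟨ν, hν⟩ : ∃ ν, ν = μ * m - f * g := ⟨_, rfl⟩
  have h4 : (c - 1) * ν = f * (g - m) := by
    rw [hμ] at h3
    rw [hν]
    linarith
  have hrhs : 0 < f * (g - m) := mul_pos (by omega) (by omega)
  have hν0 : 0 < ν := by
    by_contra h
    push Not at h
    have : (c - 1) * ν ≤ 0 := mul_nonpos_of_nonneg_of_nonpos (by omega) h
    omega
  obtain ⟨κ, hκ⟩ : ∃ κ, c = g * κ :=
    ⟨e' * s' * m - c * (s' - e'), by
      have : c = f * c - c * (g * (s' - e')) := by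
        have h11 : f * c = c + c * (g * (s' - e')) := by
          conv_lhs => rw [hd]
          ring
        linarith
      rw [hm] at this
      linarith⟩
  obtain ⟨J, hJ⟩ : ∃ J, ν = m + g * J :=
    ⟨ν * κ - f + (s' - e') * m, by
      have h12 : ν = ν * c - f * g + f * m := by linarith
      have h13 : ν * c = ν * (g * κ) := by rw [← hκ]
      have h14 : f * m = m + g * (s' - e') * m := by
        conv_lhs => rw [hd]
        ring
      linarith⟩
  rcases lt_trichotomy J 0 with h | h | h
  · have : g * J ≤ g * (-1) := mul_le_mul_of_nonneg_left (by omega) hg.le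
    omega
  · rw [h, mul_zero, add_zero] at hJ
    rw [hJ] at h4
    have h5 : m * (c - 1 + f) = f * g := by linarith
    have h6 : m * ((c - 1 + f) * c) = m * (e * (r - 1)) := by
      have : m * ((c - 1 + f) * c) = g * (f * c) := by
        rw [← mul_assoc, h5]; ring
      rw [this, hm, he', hs']; ring
    have h7 : (c - 1 + f) * c = e * (r - 1) := mul_left_cancel₀ (by omega) h6
    have h8 : r - 1 = e + f - 1 := by rw [hf]; ring
    rw [h8] at h7
    have h9 : (c - e) * (c + e + f - 1) = 0 := by linarith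
    rcases mul_eq_zero.1 h9 with h10 | h10 <;> omega
  · have h5 : g + 1 ≤ ν := by
      have : g * 1 ≤ g * J := mul_le_mul_of_nonneg_left (by omega) hg.le
      omega
    have h6 : f * (g + 1) ≤ (c - 1) * ν :=
      mul_le_mul (by omega) h5 (by omega) (by omega)
    rw [h4] at h6
    have h7 : f * (g - m) < f * (g + 1) := mul_lt_mul_of_pos_left (by omega) (by omega)
    omega

/-- Every admissible parameter set `(v, r, c)` for double or triple arrays satisfies
`v ≥ r + c - 1`. -/
theorem result (v r c : ℕ) (h : Admissible v r c) : r + c - 1 ≤ v := by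
  obtain ⟨hr, hc, hmax, h2v, hdvd, h1, h2⟩ := h
  obtain ⟨e, he⟩ := hdvd
  have hv0 : 0 < v := by omega
  have hdiv : r * c / v = e := by rw [he]; exact Nat.mul_div_cancel_left _ hv0
  rw [hdiv] at h1 h2
  have he2 : 2 ≤ e := by
    rw [he] at h2v
    by_contra h
    push Not at h
    nlinarith
  rw [max_lt_iff] at hmax
  by_contra hlt
  push Not at hlt
  have e1 : ((r - 1 : ℕ) : ℤ) = r - 1 := by push_cast [Nat.cast_sub (show 1 ≤ r by omega)]; ring
  have e2 : ((c - 1 : ℕ) : ℤ) = c - 1 := by push_cast [Nat.cast_sub (show 1 ≤ c by omega)]; ring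
  have e3 : ((e - 1 : ℕ) : ℤ) = e - 1 := by push_cast [Nat.cast_sub (show 1 ≤ e by omega)]; ring
  have h1' : ((r : ℤ) - 1) ∣ c * ((e : ℤ) - 1) := by
    rw [← e1, ← e3]; exact_mod_cast h1
  have h2' : ((c : ℤ) - 1) ∣ r * ((e : ℤ) - 1) := by
    rw [← e2, ← e3]; exact_mod_cast h2
  have hev : (e : ℤ) * v = r * c := by
    have : ((r * c : ℕ) : ℤ) = ((v * e : ℕ) : ℤ) := by rw [he]
    push_cast at this
    linarith
  rcases le_total r c with hle | hle
  · exact core v r c e (by omega) (by omega) (by omega) (by omega) hev h1' h2' (by omega)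
  · exact core v c r e (by omega) (by omega) (by omega) (by omega) (by rw [hev]; ring) h2' h1'
      (by omega)

end Pool.Agent.Results.MP_4cb54f_co.FewSymbols
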